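import Pool.Agent.TH822.AA.Main

/-!
# Distinct zeros of Dirichlet L-functions in almost all very short intervals

Unconditionally, for every primitive Dirichlet character `χ` modulo `q > 1` and every
`0 < η < 1`: for all `t ∈ [T, 2T]` outside a set of measure `T ^ (1 - δ)`, the number of distinct
zeros of `L(s, χ)` in `(t, t + H]`, `T ^ η ≤ H ≤ T / 8`, is at least
`((3 - c((1 + η) / 2)) / 2 - ε) N + E / 2 + N_off / 2`, where `c(h) = h/2 + cot(h/√2)/√2`, `E` is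
the excess multiplicity and `N_off` the number of distinct zeros off the critical line.
-/

open Filter Topology Complex MeasureTheory

namespace Pool.Agent.Results.MP_f259ea_nt.DistinctAlmostAllShort

/-- the multiplicity of `s` as a zero of `L(s, χ)` -/
noncomputable def mult {q : ℕ} [NeZero q] (χ : DirichletCharacter ℂ q) (s : ℂ) : ℕ :=
  analyticOrderNatAt (DirichletCharacter.LFunction χ) s

/-- the nontrivial zeros of `L(s, χ)` with ordinate in `(T₁, T₂]` -/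
def zeros {q : ℕ} [NeZero q] (χ : DirichletCharacter ℂ q) (T₁ T₂ : ℝ) : Set ℂ :=
  {s : ℂ | DirichletCharacter.LFunction χ s = 0 ∧ 0 < s.re ∧ s.re < 1 ∧ T₁ < s.im ∧ s.im ≤ T₂}

/-- the number of nontrivial zeros with ordinate in `(T₁, T₂]`, counted with multiplicity -/
noncomputable def N {q : ℕ} [NeZero q] (χ : DirichletCharacter ℂ q) (T₁ T₂ : ℝ) : ℕ :=
  ∑ᶠ s ∈ zeros χ T₁ T₂, mult χ s

/-- the number of distinct zeros with ordinate in `(T₁, T₂]` -/
noncomputable def Nd {q : ℕ} [NeZero q] (χ : DirichletCharacter ℂ q) (T₁ T₂ : ℝ) : ℕ :=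
  (zeros χ T₁ T₂).ncard

/-- the number of distinct zeros off the critical line with ordinate in `(T₁, T₂]` -/
noncomputable def Noff {q : ℕ} [NeZero q] (χ : DirichletCharacter ℂ q) (T₁ T₂ : ℝ) : ℕ :=
  {s : ℂ | s ∈ zeros χ T₁ T₂ ∧ s.re ≠ 1 / 2}.ncard

/-- the excess multiplicity: a zero of multiplicity `m` counts `max (m - 2) 0` if it is on the
critical line and `m - 1` if it is off the line (subtraction of natural numbers) -/
noncomputable def excess {q : ℕ} [NeZero q] (χ : DirichletCharacter ℂ q) (T₁ T₂ : ℝ) : ℕ :=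
  ∑ᶠ s ∈ zeros χ T₁ T₂, (if s.re = 1 / 2 then mult χ s - 2 else mult χ s - 1)

/-- the constant `c(h) = h/2 + cot(h/√2)/√2`; `c(1) = c_MT⁻¹ = 1.3274...` -/
noncomputable def c (h : ℝ) : ℝ := h / 2 + Real.cot (h / Real.sqrt 2) / Real.sqrt 2

section

variable {q : ℕ} [NeZero q] (χ : DirichletCharacter ℂ q) (T₁ T₂ : ℝ)

theorem zeros_eq : zeros χ T₁ T₂ = H370.zset (DirichletCharacter.LFunction χ) T₁ T₂ := by
  ext s
  simp only [zeros, H370.zset, Set.mem_ofPred_eq]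
  tauto

/-- the sets of zeros that are counted are finite -/
theorem zeros_finite (hχ : χ.IsPrimitive) (h : 0 < T₁) : (zeros χ T₁ T₂).Finite := by
  rw [zeros_eq]
  exact H370.zset_finite' (H370.good_dirichlet χ hχ) T₁ T₂ h

theorem N_eq : N χ T₁ T₂ = H370.NN (DirichletCharacter.LFunction χ) T₁ T₂ := by
  unfold N H370.NN
  rw [zeros_eq]
  rfl

theorem Nd_eq : Nd χ T₁ T₂ = H370.Nd (DirichletCharacter.LFunction χ) T₁ T₂ := by
  unfold Nd H370.Nd
  rw [zeros_eq]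

theorem Noff_eq : Noff χ T₁ T₂ = W69DZ.NF (DirichletCharacter.LFunction χ) T₁ T₂ := by
  unfold Noff W69DZ.NF
  rw [zeros_eq]

theorem excess_eq : excess χ T₁ T₂ = W69DZ.EX (DirichletCharacter.LFunction χ) T₁ T₂ := by
  unfold excess W69DZ.EX
  rw [zeros_eq]
  rfl

end

/-- Unconditionally, distinct zeros of `L(s, χ)` in almost all intervals of length `T ^ η`, for
every primitive character `χ` modulo `q > 1` and every `η > 0`. -/
theorem result :
    (∀ (q : ℕ) [NeZero q] (χ : DirichletCharacter ℂ q), χ.IsPrimitive → 1 < q →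
      ∀ η ε : ℝ, 0 < η → η < 1 → 0 < ε →
      ∃ δ : ℝ, 0 < δ ∧ ∃ T₀ : ℝ, ∀ T : ℝ, T₀ ≤ T → ∀ H : ℝ, T ^ η ≤ H → H ≤ T / 8 →
        volume {t : ℝ | T ≤ t ∧ t ≤ 2 * T ∧
          (Nd χ t (t + H) : ℝ) < ((3 - c ((1 + η) / 2)) / 2 - ε) * (N χ t (t + H) : ℝ) +
            (excess χ t (t + H) : ℝ) / 2 + (Noff χ t (t + H) : ℝ) / 2} ≤
          ENNReal.ofReal (T ^ (1 - δ))) ∧
    ∀ h : ℝ, 0 < h → h ≤ 1 → c h ≤ 1 / h + h / 3 := by
  refine ⟨fun q _ χ hχ _ η ε h0 h1 hε => ?_, H295SI.cc_le⟩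
  obtain ⟨δ, hδ, T0, hT1, hT0⟩ := Pool.Agent.TH822.AA.almost_prim χ hχ η ((1 + η) / 2) (2 * ε)
    h0 h1 (by linarith) (by linarith) (by linarith)
  refine ⟨δ, hδ, T0, fun T hT H hH1 hH2 => (measure_mono ?_).trans (hT0 T hT H hH1 hH2)⟩
  rintro t ⟨ht1, ht2, ht3⟩
  refine ⟨⟨ht1, ht2⟩, fun hcon => ?_⟩
  have h4 := hcon.2
  have hc : H295SI.cc ((1 + η) / 2) = c ((1 + η) / 2) := rfl
  rw [hc] at h4
  rw [N_eq, Nd_eq, Noff_eq, excess_eq] at ht3
  linarith

end Pool.Agent.Results.MP_f259ea_nt.DistinctAlmostAllShort
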