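import Pool.Agent.TH243.CYC.Conv

/-!
# Distinct zeros of all Dirichlet L-functions modulo `q`, every `q`, every `T ≥ C (1 + √(log q))`

Unconditionally, with one absolute constant `C`: for every modulus `q ≥ 1` and every
`T ≥ C (1 + √(log q))`, the numbers of distinct zeros with `T < Im s ≤ 2T` of the L-functions
`L(s, χ)`, `χ` modulo `q`, add up to at least 83.62 per cent of the number of all these zeros
counted with multiplicity, and more than two thirds of the characters modulo `q` have at least
`T log(qT) / 13` distinct zeros there (an L-function modulo `q` has at most about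
`T log(qT) / (2π)` zeros there). No average over `q` is taken and nothing is assumed.

The proof is that of `MP_1e057a_nt.EveryModulusHybrid` with the weights of distinct zeros.
-/

open Complex Filter Topology

set_option autoImplicit false

namespace Pool.Agent.Results.MP_f259ea_nt.EveryModulusDistinct

/-- the zeros of `L(s, χ)` in the open critical strip with `T < Im s ≤ 2T` -/
def zeros {q : ℕ} [NeZero q] (χ : DirichletCharacter ℂ q) (T : ℝ) : Set ℂ :=
  {s : ℂ | DirichletCharacter.LFunction χ s = 0 ∧ 0 < s.re ∧ s.re < 1 ∧ T < s.im ∧ s.im ≤ 2 * T}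

/-- the number of these zeros, counted with multiplicity -/
noncomputable def N {q : ℕ} [NeZero q] (χ : DirichletCharacter ℂ q) (T : ℝ) : ℕ :=
  ∑ᶠ s ∈ zeros χ T, analyticOrderNatAt (DirichletCharacter.LFunction χ) s

/-- the number of distinct zeros -/
noncomputable def Nd {q : ℕ} [NeZero q] (χ : DirichletCharacter ℂ q) (T : ℝ) : ℕ :=
  (zeros χ T).ncard

theorem zeros_eq {q : ℕ} [NeZero q] (χ : DirichletCharacter ℂ q) (T : ℝ) :
    zeros χ T = H370.zset (DirichletCharacter.LFunction χ) T (2 * T) := by
  ext s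
  simp only [zeros, H370.zset, Set.mem_ofPred_eq]
  tauto

theorem N_eq {q : ℕ} [NeZero q] (χ : DirichletCharacter ℂ q) (T : ℝ) :
    N χ T = H370.NN (DirichletCharacter.LFunction χ) T (2 * T) := by
  unfold N H370.NN H370.mult
  rw [zeros_eq]

theorem Nd_eq {q : ℕ} [NeZero q] (χ : DirichletCharacter ℂ q) (T : ℝ) :
    Nd χ T = H370.Nd (DirichletCharacter.LFunction χ) T (2 * T) := by
  unfold Nd H370.Nd
  rw [zeros_eq]

/-- There is an absolute constant `C` such that for every modulus `q` and every
`T ≥ C (1 + √(log q))`: the sets of zeros are finite; the L-functions modulo `q` have together at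
least `0.99 φ(q) T log(qT) / (2π)` zeros; at least 83.62 per cent of them are distinct; and more
than two thirds of the characters modulo `q` have at least `T log(qT) / 13` distinct zeros. -/
theorem result : ∃ C : ℝ, 0 < C ∧ ∀ (q : ℕ) [NeZero q] (T : ℝ),
    C * (1 + Real.sqrt (Real.log q)) ≤ T →
    (∀ χ : DirichletCharacter ℂ q, (zeros χ T).Finite) ∧
    0.99 * (T / (2 * Real.pi) * Real.log (q * T)) * (Nat.totient q : ℝ) ≤
      ∑ χ : DirichletCharacter ℂ q, (N χ T : ℝ) ∧
    0.8362 * ∑ χ : DirichletCharacter ℂ q, (N χ T : ℝ) ≤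
      ∑ χ : DirichletCharacter ℂ q, (Nd χ T : ℝ) ∧
    2 * Nat.totient q <
      3 * {χ : DirichletCharacter ℂ q | T * Real.log (q * T) / 13 ≤ (Nd χ T : ℝ)}.ncard := by
  obtain ⟨C, hC, h⟩ := Pool.Agent.TH243.CYC.cyc_L
  refine ⟨C, by linarith, fun q _ T hT => ?_⟩
  obtain ⟨h0, -, h2, h3, -, h5⟩ := h q T hT
  simp only [N_eq, Nd_eq]
  refine ⟨fun χ => ?_, h3, le_trans ?_ h2, h5⟩
  · rw [zeros_eq]
    exact Pool.Agent.TH243.CYC.finite_zset χ T (2 * T) h0
  · refine mul_le_mul_of_nonneg_right (by norm_num) (Finset.sum_nonneg fun χ _ => Nat.cast_nonneg _)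

end Pool.Agent.Results.MP_f259ea_nt.EveryModulusDistinct
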