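import Pool.Agent.TH803.CL.NearY
import Pool.Agent.H370R2.DirGood
import Pool.Agent.H295R2.SI.Fin

/-!
# Separated sets of zeros of Dirichlet L-functions

Unconditionally, for every primitive Dirichlet character `χ` modulo `q > 1`: in every interval
`(T, T + H]` with `T ^ h ≤ H ≤ T` there are at least `((3 - c(h))/2 - 37 δ² - ε) N` zeros of
`L(s, χ)` with real part at least `1/2`, such that those closer than `δ / log T` to the critical line
have distance at least `δ / log T` from all the others. Here `c(h) = h/2 + cot(h/√2)/√2`. For the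
zeros in `(T, 2 T]` and `δ ≤ 1/30` the proportion is at least `(3 - c(1) + κ)/2 - 37 δ²` with a
constant `κ > 0` which depends on nothing.
-/

open Filter Topology Complex

namespace Pool.Agent.Results.MP_f259ea_nt.SeparatedZeros

/-- the multiplicity of `s` as a zero of `L(s, χ)` -/
noncomputable def mult {q : ℕ} [NeZero q] (χ : DirichletCharacter ℂ q) (s : ℂ) : ℕ :=
  analyticOrderNatAt (DirichletCharacter.LFunction χ) s

/-- the nontrivial zeros of `L(s, χ)` with ordinate in `(T₁, T₂]` -/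
def zeros {q : ℕ} [NeZero q] (χ : DirichletCharacter ℂ q) (T₁ T₂ : ℝ) : Set ℂ :=
  {s : ℂ | DirichletCharacter.LFunction χ s = 0 ∧ 0 < s.re ∧ s.re < 1 ∧ T₁ < s.im ∧ s.im ≤ T₂}

/-- the number of nontrivial zeros with ordinate in `(T₁, T₂]`, counted with multiplicity -/
noncomputable def N {q : ℕ} [NeZero q] (χ : DirichletCharacter ℂ q) (T₁ T₂ : ℝ) : ℕ :=
  ∑ᶠ s ∈ zeros χ T₁ T₂, mult χ s

/-- the constant `c(h) = h/2 + cot(h/√2)/√2`; `c(1) = c_MT⁻¹ = 1.3274...` -/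
noncomputable def c (h : ℝ) : ℝ := h / 2 + Real.cot (h / Real.sqrt 2) / Real.sqrt 2

section

variable {q : ℕ} [NeZero q] (χ : DirichletCharacter ℂ q) (T₁ T₂ : ℝ)

theorem zeros_eq : zeros χ T₁ T₂ = H370.zset (DirichletCharacter.LFunction χ) T₁ T₂ := by
  ext s
  simp only [zeros, H370.zset, Set.mem_ofPred_eq]
  tauto

/-- the sets of zeros that are counted are finite -/
theorem zeros_finite (hχ : χ.IsPrimitive) (h : 0 < T₁) : (zeros χ T₁ T₂).Finite := by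
  rw [zeros_eq]
  exact H370.zset_finite' (H370.good_dirichlet χ hχ) T₁ T₂ h

theorem N_eq : N χ T₁ T₂ = H370.NN (DirichletCharacter.LFunction χ) T₁ T₂ := by
  unfold N H370.NN
  rw [zeros_eq]
  rfl

end

/-- **separated sets of zeros of Dirichlet L-functions** -/
theorem result :
    (∀ (q : ℕ) [NeZero q] (χ : DirichletCharacter ℂ q), 1 < q → χ.IsPrimitive →
      ∀ h δ ε : ℝ, 0 < h → h ≤ 1 → 0 < δ → δ ≤ 1 / 10 → 0 < ε →
      ∃ T₀ : ℝ, ∀ T : ℝ, T₀ ≤ T → ∀ H : ℝ, T ^ h ≤ H → H ≤ T →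
        ∃ M : Finset ℂ, (∀ s ∈ M, s ∈ zeros χ T (T + H) ∧ 1 / 2 ≤ s.re) ∧
          (∀ a ∈ M, ∀ b ∈ M, a ≠ b → a.re < 1 / 2 + δ / Real.log T →
            δ / Real.log T ≤ ‖a - b‖) ∧
          ((3 - c h) / 2 - 37 * δ ^ 2 - ε) * (N χ T (T + H) : ℝ) ≤ (M.card : ℝ)) ∧
    (∃ κ : ℝ, 0 < κ ∧
      ∀ (q : ℕ) [NeZero q] (χ : DirichletCharacter ℂ q), 1 < q → χ.IsPrimitive →
      ∀ δ : ℝ, 0 < δ → δ ≤ 1 / 30 → ∃ T₀ : ℝ, ∀ T : ℝ, T₀ ≤ T →
        ∃ M : Finset ℂ, (∀ s ∈ M, s ∈ zeros χ T (2 * T) ∧ 1 / 2 ≤ s.re) ∧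
          (∀ a ∈ M, ∀ b ∈ M, a ≠ b → a.re < 1 / 2 + δ / Real.log T →
            δ / Real.log T ≤ ‖a - b‖) ∧
          ((3 - c 1 + κ) / 2 - 37 * δ ^ 2) * (N χ T (2 * T) : ℝ) ≤ (M.card : ℝ)) ∧
    ∀ h : ℝ, 0 < h → h ≤ 1 → c h ≤ 1 / h + h / 3 := by
  refine ⟨fun q _ χ _ hχ h δ ε hh0 hh1 hδ0 hδ1 hε => ?_, ?_, H295SI.cc_le⟩
  swap
  · obtain ⟨κ, hκ, hsepY⟩ := TH803CL.sepY_near
    refine ⟨κ, hκ, fun q _ χ _ hχ δ hδ0 hδ1 => ?_⟩
    have hF := H370.good_dirichlet χ hχ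
    obtain ⟨T0, hT0, hmain⟩ := hsepY _ hF δ hδ0 hδ1
    refine ⟨T0, fun T hT => ?_⟩
    obtain ⟨M, hM, hMre, hsep, hcount⟩ := hmain T hT
    have hT1 : 1 ≤ T := by linarith [hT0.trans hT]
    refine ⟨M, fun s hs => ⟨?_, hMre s hs⟩, fun a ha b hb hab h1 => ?_, ?_⟩
    · rw [zeros_eq]
      exact (H370.mem_Zf hF hT1).mp (hM hs)
    · exact hsep a ha b hb hab (Or.inl (by linarith))
    · rw [N_eq]
      have e1 : (3 - c 1 + κ - 74 * δ ^ 2) *
        (H370.NN (DirichletCharacter.LFunction χ) T (2 * T) : ℝ) ≤ 2 * (M.card : ℝ) := hcount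
      linarith
  have hF := H370.good_dirichlet χ hχ
  obtain ⟨T0, hT0, hmain⟩ := TH803CL.sep_main hF h (2 * ε) δ hh0 hh1 (by positivity) hδ0 hδ1
  refine ⟨T0, fun T hT H hH1 hH2 => ?_⟩
  obtain ⟨M, hM, hMre, hsep, hcount⟩ := hmain T hT H hH1 hH2
  have hT1 : 1 ≤ T := by linarith [hT0.trans hT]
  refine ⟨M, fun s hs => ⟨?_, hMre s hs⟩, fun a ha b hb hab h1 => ?_, ?_⟩
  · rw [zeros_eq]
    exact (H370.mem_Zf hF hT1).mp (hM hs)
  · exact hsep a ha b hb hab (Or.inl (by linarith))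
  · rw [N_eq]
    have e1 : (3 - c h - 74 * δ ^ 2 - 2 * ε) *
      (H370.NN (DirichletCharacter.LFunction χ) T (T + H) : ℝ) ≤ 2 * (M.card : ℝ) := hcount
    linarith

end Pool.Agent.Results.MP_f259ea_nt.SeparatedZeros
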